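import Mathlib
import Pool.Agent.Lib_MP_a20b56_co.Problem
import Pool.Agent.Lib_MP_a20b56_pl.Defs
import Pool.Agent.Lib_MP_a20b56_lb.Fin

set_option autoImplicit false

namespace Pool.Agent.Lib_MP_a20b56_old.PowerLowerBounds

open MPa20b56

/-- Let `d ≥ 3`, and let `n = 1` or `n (n + 5) + 2 ≤ 2 d`. Then the exponent `β_d` of ordinary weak
`ε`-nets of finite point sets in `ℝ^d` and the exponent `α_d` of volumetric weak `ε`-nets satisfy
`(n + 2) / 2 ≤ β_d ≤ α_d`. In particular `α_d ≥ β_d ≥ 3/2` for every `d ≥ 3`, and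
`α_d ≥ β_d → ∞` as `d → ∞`. -/
theorem result :
    ∀ d n : ℕ, 3 ≤ d → (n = 1 ∨ n * (n + 5) + 2 ≤ 2 * d) →
      ((((n : ℝ) + 2) / 2 : ℝ) : EReal) ≤ beta d ∧ beta d ≤ alpha d := by
  intro d n hd hn
  refine ⟨Lb.le_beta fun β hβ => ?_, Lb.beta_le_alpha' (by omega)⟩
  rcases hn with rfl | hn
  · have := Lb.three_halves_le hd hβ
    push_cast
    linarith
  · exact Lb.general_le hn hβ

end Pool.Agent.Lib_MP_a20b56_old.PowerLowerBounds
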